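import Mathlib

/-! Pigeonhole over types: a sum over many classes is carried by one type. -/

set_option autoImplicit false

open Set Filter Topology

namespace Pool.Agent.Helper62.ES

/-- weight of an integer -/
private noncomputable def wt (δ : ℝ) (n : ℤ) : ℝ := (2 : ℝ) ^ (-(δ * |(n : ℝ)|))

private theorem wt_pos (δ : ℝ) (n : ℤ) : 0 < wt δ n := by unfold wt; positivity

private theorem wt_summable {δ : ℝ} (hδ : 0 < δ) : Summable (wt δ) := by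
  have hr0 : (0 : ℝ) ≤ (2 : ℝ) ^ (-δ) := by positivity
  have hr1 : (2 : ℝ) ^ (-δ) < 1 := Real.rpow_lt_one_of_one_lt_of_neg (by norm_num) (by linarith)
  have hg : Summable fun n : ℕ => ((2 : ℝ) ^ (-δ)) ^ n := summable_geometric_of_lt_one hr0 hr1
  refine Summable.of_nat_of_neg (hg.congr fun n => ?_) (hg.congr fun n => ?_)
  · unfold wt
    rw [Int.cast_natCast, abs_of_nonneg (Nat.cast_nonneg n), ← neg_mul, Real.rpow_mul_natCast
      (by norm_num)]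
  · unfold wt
    rw [Int.cast_neg, Int.cast_natCast, abs_neg, abs_of_nonneg (Nat.cast_nonneg n), ← neg_mul,
      Real.rpow_mul_natCast (by norm_num)]

private theorem wt3_summable {δ : ℝ} (hδ : 0 < δ) :
    Summable fun t : ℤ × ℤ × ℤ => wt δ t.1 * (wt δ t.2.1 * wt δ t.2.2) := by
  have h := wt_summable hδ
  have h2 : Summable fun t : ℤ × ℤ => wt δ t.1 * wt δ t.2 :=
    h.mul_of_nonneg h (fun n => (wt_pos δ n).le) (fun n => (wt_pos δ n).le)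
  exact h.mul_of_nonneg h2 (fun n => (wt_pos δ n).le)
    (fun t => (mul_pos (wt_pos δ _) (wt_pos δ _)).le)

/-- tails of a convergent series -/
private theorem tail_small {b : ℕ → ℝ} (hb : Summable b) (h0 : ∀ n, 0 ≤ b n) {ε : ℝ} (hε : 0 < ε) :
    ∃ n₀ : ℕ, ∀ U V : ℕ, n₀ ≤ U → ∑ u ∈ Finset.Ico U V, b u ≤ ε := by
  have h1 := tendsto_sum_nat_add b
  have h2 : ∀ᶠ i in atTop, ∑' k, b (k + i) < ε := h1.eventually (eventually_lt_nhds hε)
  obtain ⟨n₀, hn₀⟩ := eventually_atTop.1 h2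
  refine ⟨n₀, fun U V hU => ?_⟩
  rw [Finset.sum_Ico_eq_sum_range]
  have h3 : ∑ k ∈ Finset.range (V - U), b (U + k) ≤ ∑' k, b (k + U) := by
    have h4 : Summable fun k => b (k + U) := (summable_nat_add_iff U).2 hb
    have h5 := h4.sum_le_tsum (Finset.range (V - U)) (fun k _ => h0 _)
    refine le_trans (le_of_eq (Finset.sum_congr rfl fun k _ => ?_)) h5
    rw [add_comm]
  exact h3.trans (hn₀ U hU).le

private theorem b_summable {e : ℝ} (he : 0 < e) :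
    Summable fun u : ℕ => (8 : ℝ) * (u : ℝ) ^ 2 * (2 : ℝ) ^ (-(e / 2) * u) := by
  have hr0 : (0 : ℝ) ≤ (2 : ℝ) ^ (-(e / 2)) := by positivity
  have hr1 : (2 : ℝ) ^ (-(e / 2)) < 1 :=
    Real.rpow_lt_one_of_one_lt_of_neg (by norm_num) (by linarith)
  have h := (summable_pow_mul_geometric_of_norm_lt_one 2
    (r := (2 : ℝ) ^ (-(e / 2))) (by rw [Real.norm_of_nonneg hr0]; exact hr1)).mul_left 8
  refine h.congr fun u => ?_
  rw [Real.rpow_mul_natCast (by norm_num)]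
  ring

theorem pig_core (p e c₀ δ : ℝ) (he : 0 < e) (hc₀ : 0 < c₀) (hδ : 0 < δ) :
    ∃ (u₀ : ℕ) (c : ℝ), 0 < c ∧ c ≤ 1 ∧ ∀ (h : ℕ → ℕ → ℕ → ℕ) (g : ℕ → ℕ → ℕ → ℝ) (U₀ V : ℕ),
      (∀ u q i, g u q i = 0 ∨ ((|(q : ℝ) - (p - 1) * u| ≤ e / 6 * u ∧
        |(i : ℝ) - u / p| ≤ e / 6 * u) ∧ g u q i = (2 : ℝ) ^ (-(i : ℤ)) * (h u q i : ℝ))) →
      u₀ ≤ U₀ →
      c₀ ≤ ∑ u ∈ Finset.Ico U₀ V, ∑ q ∈ Finset.range (2 * u), ∑ i ∈ Finset.range (2 * u),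
        g u q i →
      (∃ u q i : ℕ, U₀ ≤ u ∧ (|(q : ℝ) - (p - 1) * u| ≤ e / 6 * u ∧
        |(i : ℝ) - u / p| ≤ e / 6 * u) ∧ (2 : ℝ) ^ ((i : ℝ) + e / 2 * u) ≤ h u q i) ∨
      ∃ (R Y β : ℤ) (W : Finset ℕ) (q i : ℕ → ℕ),
        max 1 (c * (2 : ℝ) ^ (-(β : ℝ) - δ * (|(R : ℝ)| + |(Y : ℝ)| + |(β : ℝ)|))) ≤
          (W.card : ℝ) ∧
        ∀ w ∈ W, U₀ ≤ w ∧ ((q w : ℤ) = ⌊(p - 1) * w⌋ + R ∧ (i w : ℤ) = ⌊(w : ℝ) / p⌋ + Y ∧
          |(R : ℝ)| + |(Y : ℝ)| + |(β : ℝ)| ≤ e * w) ∧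
          (2 : ℝ) ^ ((i w : ℤ) + β) ≤ (h w (q w) (i w) : ℝ) ∧
          (h w (q w) (i w) : ℝ) < 2 * (2 : ℝ) ^ ((i w : ℤ) + β) := by
  classical
  have hK := wt3_summable hδ
  obtain ⟨K3, hK3⟩ : ∃ K3 : ℝ, K3 = ∑' t : ℤ × ℤ × ℤ, wt δ t.1 * (wt δ t.2.1 * wt δ t.2.2) :=
    ⟨_, rfl⟩
  have hK30 : 0 ≤ K3 := by
    rw [hK3]
    exact tsum_nonneg fun t => (mul_pos (wt_pos δ _) (mul_pos (wt_pos δ _) (wt_pos δ _))).le
  obtain ⟨n₀, hn₀⟩ := tail_small (b_summable he) (fun n => by positivity)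
    (ε := c₀ / 4) (by positivity)
  obtain ⟨n₁, hn₁⟩ := exists_nat_ge (12 / e)
  have hcp : 0 < c₀ / (8 * (K3 + 1)) := by positivity
  refine ⟨max n₀ n₁, min 1 (c₀ / (8 * (K3 + 1))), lt_min one_pos hcp, min_le_left _ _, ?_⟩
  obtain ⟨c, hc⟩ : ∃ c, c = min 1 (c₀ / (8 * (K3 + 1))) := ⟨_, rfl⟩
  have hc0 : 0 < c := by rw [hc]; exact lt_min one_pos hcp
  have hc1 : c * K3 ≤ c₀ / 8 := by
    have h1 : c ≤ c₀ / (8 * (K3 + 1)) := by rw [hc]; exact min_le_right _ _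
    calc c * K3 ≤ c₀ / (8 * (K3 + 1)) * K3 := by gcongr
      _ ≤ c₀ / (8 * (K3 + 1)) * (K3 + 1) := by gcongr; linarith
      _ = c₀ / 8 := by field_simp
  rw [← hc]
  intro h g U₀ V hg hU hsum
  by_contra hcon
  push Not at hcon
  obtain ⟨hA, hB⟩ := hcon
  have hUn₁ : (12 : ℝ) / e ≤ U₀ := hn₁.trans (by exact_mod_cast (le_max_right _ _).trans hU)
  -- the exponent `β`
  obtain ⟨bt, hbt⟩ : ∃ bt : ℕ → ℕ → ℕ → ℤ, ∀ u q i, bt u q i = (Nat.log 2 (h u q i) : ℤ) - i :=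
    ⟨fun u q i => (Nat.log 2 (h u q i) : ℤ) - i, fun _ _ _ => rfl⟩
  have hlog1 : ∀ u q i, 0 < h u q i → (2 : ℝ) ^ ((i : ℤ) + bt u q i) ≤ h u q i := by
    intro u q i hp
    rw [hbt, add_sub_cancel, zpow_natCast]
    exact_mod_cast Nat.pow_log_le_self 2 hp.ne'
  have hlog2 : ∀ u q i, (h u q i : ℝ) < 2 * (2 : ℝ) ^ ((i : ℤ) + bt u q i) := by
    intro u q i
    rw [hbt, add_sub_cancel, zpow_natCast]
    have := Nat.lt_pow_succ_log_self (b := 2) (by norm_num) (h u q i)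
    have h2 : (h u q i : ℝ) < (2 : ℝ) ^ (Nat.log 2 (h u q i) + 1) := by exact_mod_cast this
    rw [pow_succ] at h2
    linarith
  -- admissible triples
  obtain ⟨good, hgood⟩ : ∃ good : ℕ → ℕ → ℕ → Prop, ∀ u q i, good u q i ↔
      ((|(q : ℝ) - (p - 1) * u| ≤ e / 6 * u ∧ |(i : ℝ) - u / p| ≤ e / 6 * u) ∧ 0 < h u q i ∧
        -(e / 2) * u ≤ (bt u q i : ℝ)) := ⟨_, fun _ _ _ => Iff.rfl⟩
  have hterm : ∀ u q i, g u q i ≤ (if good u q i then 2 * (2 : ℝ) ^ (bt u q i) else 0) +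
      2 * (2 : ℝ) ^ (-(e / 2) * u) := by
    intro u q i
    have hpos : (0 : ℝ) ≤ if good u q i then 2 * (2 : ℝ) ^ (bt u q i) else 0 := by
      split_ifs <;> positivity
    have hpos2 : (0 : ℝ) < 2 * (2 : ℝ) ^ (-(e / 2) * u) := by positivity
    rcases hg u q i with h0 | ⟨hC, h1⟩
    · rw [h0]; linarith
    · by_cases hh : 0 < h u q i
      · have h2 : g u q i ≤ 2 * (2 : ℝ) ^ (bt u q i) := by
          rw [h1]
          have h3 := (hlog2 u q i).le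
          rw [zpow_add₀ (two_ne_zero)] at h3
          have h4 : (0 : ℝ) < (2 : ℝ) ^ (-(i : ℤ)) := by positivity
          calc (2 : ℝ) ^ (-(i : ℤ)) * (h u q i : ℝ)
              ≤ (2 : ℝ) ^ (-(i : ℤ)) * (2 * ((2 : ℝ) ^ (i : ℤ) * (2 : ℝ) ^ bt u q i)) := by
                gcongr
            _ = 2 * (2 : ℝ) ^ (bt u q i) := by
                rw [zpow_neg]
                field_simp
        by_cases hb : -(e / 2) * u ≤ (bt u q i : ℝ)
        · rw [if_pos ((hgood u q i).2 ⟨hC, hh, hb⟩)]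
          linarith
        · push Not at hb
          have h3 : (2 : ℝ) ^ (bt u q i) ≤ (2 : ℝ) ^ (-(e / 2) * u) := by
            rw [← Real.rpow_intCast]
            exact Real.rpow_le_rpow_of_exponent_le (by norm_num) hb.le
          linarith
      · have h3 : h u q i = 0 := by omega
        rw [h1, h3]
        simp only [Nat.cast_zero, mul_zero]
        linarith
  have hsum2 : 3 / 4 * c₀ ≤ ∑ u ∈ Finset.Ico U₀ V, ∑ q ∈ Finset.range (2 * u),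
      ∑ i ∈ Finset.range (2 * u), (if good u q i then 2 * (2 : ℝ) ^ (bt u q i) else 0) := by
    have h1 : ∑ u ∈ Finset.Ico U₀ V, ∑ q ∈ Finset.range (2 * u), ∑ i ∈ Finset.range (2 * u),
        g u q i ≤ ∑ u ∈ Finset.Ico U₀ V, ((∑ q ∈ Finset.range (2 * u),
        ∑ i ∈ Finset.range (2 * u), (if good u q i then 2 * (2 : ℝ) ^ (bt u q i) else 0)) +
        (8 : ℝ) * (u : ℝ) ^ 2 * (2 : ℝ) ^ (-(e / 2) * u)) := by
      refine Finset.sum_le_sum fun u _ => ?_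
      calc ∑ q ∈ Finset.range (2 * u), ∑ i ∈ Finset.range (2 * u), g u q i
          ≤ ∑ q ∈ Finset.range (2 * u), ∑ i ∈ Finset.range (2 * u),
            ((if good u q i then 2 * (2 : ℝ) ^ (bt u q i) else 0) +
              2 * (2 : ℝ) ^ (-(e / 2) * u)) :=
            Finset.sum_le_sum fun q _ => Finset.sum_le_sum fun i _ => hterm u q i
        _ = _ := by
            simp only [Finset.sum_add_distrib, Finset.sum_const, Finset.card_range,
              nsmul_eq_mul]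
            push_cast
            ring
    rw [Finset.sum_add_distrib] at h1
    have h2 := hn₀ U₀ V ((le_max_left _ _).trans hU)
    linarith
  -- the finite set of good triples
  obtain ⟨T, hT⟩ : ∃ T : Finset (Σ _ : ℕ, ℕ × ℕ), T = ((Finset.Ico U₀ V).sigma fun u =>
      Finset.range (2 * u) ×ˢ Finset.range (2 * u)).filter
        (fun z => good z.1 z.2.1 z.2.2) := ⟨_, rfl⟩
  have hTmem : ∀ z ∈ T, U₀ ≤ z.1 ∧ good z.1 z.2.1 z.2.2 := by
    intro z hz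
    rw [hT, Finset.mem_filter, Finset.mem_sigma, Finset.mem_Ico] at hz
    exact ⟨hz.1.1.1, hz.2⟩
  have hsum3 : ∑ u ∈ Finset.Ico U₀ V, ∑ q ∈ Finset.range (2 * u),
      ∑ i ∈ Finset.range (2 * u), (if good u q i then 2 * (2 : ℝ) ^ (bt u q i) else 0) =
      ∑ z ∈ T, 2 * (2 : ℝ) ^ (bt z.1 z.2.1 z.2.2) := by
    rw [hT, Finset.sum_filter, Finset.sum_sigma]
    refine Finset.sum_congr rfl fun u _ => ?_
    rw [Finset.sum_product]
  -- types
  obtain ⟨ty, hty⟩ : ∃ ty : (Σ _ : ℕ, ℕ × ℕ) → ℤ × ℤ × ℤ, ∀ z, ty z =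
      ((z.2.1 : ℤ) - ⌊(p - 1) * (z.1 : ℝ)⌋, (z.2.2 : ℤ) - ⌊(z.1 : ℝ) / p⌋,
        bt z.1 z.2.1 z.2.2) := ⟨_, fun _ => rfl⟩
  have hcard : ∀ t : ℤ × ℤ × ℤ, (((T.filter (fun z => ty z = t)).card : ℕ) : ℝ) <
      max 1 (c * (2 : ℝ) ^ (-(t.2.2 : ℝ) -
        δ * (|(t.1 : ℝ)| + |(t.2.1 : ℝ)| + |(t.2.2 : ℝ)|))) := by
    intro t
    by_contra hle
    push Not at hle
    obtain ⟨R, Y, β⟩ := t
    have hinj : Set.InjOn (fun z : (Σ _ : ℕ, ℕ × ℕ) => z.1)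
        (T.filter (fun z => ty z = (R, Y, β)) : Finset _) := by
      rintro ⟨u, q, i⟩ hz ⟨u', q', i'⟩ hz' (huu : u = u')
      subst huu
      rw [Finset.mem_coe, Finset.mem_filter, hty] at hz hz'
      have e1 := hz.2
      have e2 := hz'.2
      simp only [Prod.mk.injEq] at e1 e2
      have e3 : q = q' := by omega
      have e4 : i = i' := by omega
      subst e3 e4
      rfl
    obtain ⟨w, hwW, hw⟩ := hB R Y β ((T.filter (fun z => ty z = (R, Y, β))).image (fun z => z.1))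
      (fun w => (⌊(p - 1) * (w : ℝ)⌋ + R).toNat) (fun w => (⌊(w : ℝ) / p⌋ + Y).toNat)
      (by rw [Finset.card_image_of_injOn hinj]; exact hle)
    rw [Finset.mem_image] at hwW
    obtain ⟨⟨u, q, i⟩, hz, rfl⟩ := hwW
    rw [Finset.mem_filter, hty] at hz
    obtain ⟨hzT, hz2⟩ := hz
    simp only [Prod.mk.injEq] at hz2
    obtain ⟨z1, z2, z3⟩ := hz2
    obtain ⟨hUu, hgz⟩ := hTmem _ hzT
    simp only at hUu hgz
    rw [hgood] at hgz
    obtain ⟨⟨c1, c2⟩, c3, c4⟩ := hgz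
    have eq1 : (⌊(p - 1) * (u : ℝ)⌋ + R).toNat = q := by omega
    have eq2 : (⌊(u : ℝ) / p⌋ + Y).toNat = i := by omega
    have hUuR : (U₀ : ℝ) ≤ u := by exact_mod_cast hUu
    have hu12 : 12 ≤ e * u := by
      have : 12 / e ≤ (u : ℝ) := hUn₁.trans hUuR
      rw [div_le_iff₀ he] at this
      linarith
    have hβ2 : (β : ℝ) < e / 2 * u := by
      have h1 := hlog1 u q i c3
      have h2 := hA u q i hUu ⟨c1, c2⟩
      rw [z3] at h1
      have h3 : (2 : ℝ) ^ (((i : ℤ) + β : ℤ) : ℝ) < (2 : ℝ) ^ ((i : ℝ) + e / 2 * u) := by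
        rw [Real.rpow_intCast]
        exact h1.trans_lt h2
      rw [Real.rpow_lt_rpow_left_iff (by norm_num)] at h3
      push_cast at h3
      linarith
    rw [z3] at c4
    have hR : |(R : ℝ)| ≤ e / 6 * u + 1 := by
      have h1 : (R : ℝ) = ((q : ℝ) - (p - 1) * u) + ((p - 1) * u - ⌊(p - 1) * (u : ℝ)⌋) := by
        rw [← z1]; push_cast; ring
      rw [h1]
      refine (abs_add_le _ _).trans (add_le_add c1 ?_)
      rw [abs_le]
      constructor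
      · linarith [Int.floor_le ((p - 1) * (u : ℝ))]
      · linarith [Int.lt_floor_add_one ((p - 1) * (u : ℝ))]
    have hY : |(Y : ℝ)| ≤ e / 6 * u + 1 := by
      have h1 : (Y : ℝ) = ((i : ℝ) - u / p) + (u / p - ⌊(u : ℝ) / p⌋) := by
        rw [← z2]; push_cast; ring
      rw [h1]
      refine (abs_add_le _ _).trans (add_le_add c2 ?_)
      rw [abs_le]
      constructor
      · linarith [Int.floor_le ((u : ℝ) / p)]
      · linarith [Int.lt_floor_add_one ((u : ℝ) / p)]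
    have hβ3 : |(β : ℝ)| ≤ e / 2 * u := by
      rw [abs_le]
      constructor
      · linarith
      · exact hβ2.le
    have hadm : |(R : ℝ)| + |(Y : ℝ)| + |(β : ℝ)| ≤ e * u := by linarith
    have h1 := hlog1 u q i c3
    have h2 := hlog2 u q i
    rw [z3] at h1 h2
    have f1 : (((⌊(p - 1) * (u : ℝ)⌋ + R).toNat : ℕ) : ℤ) = ⌊(p - 1) * (u : ℝ)⌋ + R := by
      rw [eq1]; omega
    have f2 : (((⌊(u : ℝ) / p⌋ + Y).toNat : ℕ) : ℤ) = ⌊(u : ℝ) / p⌋ + Y := by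
      rw [eq2]; omega
    have h4 := hw hUu ⟨f1, f2, hadm⟩
      (by simp only [eq1, eq2]; exact h1)
    simp only [eq1, eq2] at h4
    exact absurd h2 (not_lt.2 h4)
  have hsum4 : ∑ z ∈ T, 2 * (2 : ℝ) ^ (bt z.1 z.2.1 z.2.2) =
      ∑ t ∈ T.image ty, ((T.filter (fun z => ty z = t)).card : ℝ) * (2 * (2 : ℝ) ^ t.2.2) := by
    have h1 : ∀ z ∈ T, 2 * (2 : ℝ) ^ (bt z.1 z.2.1 z.2.2) =
        (fun t : ℤ × ℤ × ℤ => 2 * (2 : ℝ) ^ t.2.2) (ty z) := by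
      intro z _
      simp only [hty]
    rw [Finset.sum_congr rfl h1, Finset.sum_comp (fun t : ℤ × ℤ × ℤ => 2 * (2 : ℝ) ^ t.2.2) ty]
    simp only [nsmul_eq_mul]
  have hsum5 : ∑ t ∈ T.image ty, ((T.filter (fun z => ty z = t)).card : ℝ) *
      (2 * (2 : ℝ) ^ t.2.2) ≤ ∑ t ∈ T.image ty, 2 * c * (wt δ t.1 * (wt δ t.2.1 * wt δ t.2.2)) := by
    refine Finset.sum_le_sum fun t _ => ?_
    have h1 := hcard t
    have hw0 : 0 < wt δ t.1 * (wt δ t.2.1 * wt δ t.2.2) :=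
      mul_pos (wt_pos δ _) (mul_pos (wt_pos δ _) (wt_pos δ _))
    have h2 : (2 : ℝ) ^ (-(t.2.2 : ℝ) - δ * (|(t.1 : ℝ)| + |(t.2.1 : ℝ)| + |(t.2.2 : ℝ)|)) *
        (2 : ℝ) ^ t.2.2 = wt δ t.1 * (wt δ t.2.1 * wt δ t.2.2) := by
      unfold wt
      rw [← Real.rpow_intCast, ← Real.rpow_add (by norm_num), ← Real.rpow_add (by norm_num),
        ← Real.rpow_add (by norm_num)]
      congr 1
      ring
    rcases Nat.eq_zero_or_pos (T.filter (fun z => ty z = t)).card with h3 | h3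
    · rw [h3, Nat.cast_zero, zero_mul]
      positivity
    · have h4 : (1 : ℝ) ≤ ((T.filter (fun z => ty z = t)).card : ℝ) := by exact_mod_cast h3
      have h5 : ((T.filter (fun z => ty z = t)).card : ℝ) ≤ c * (2 : ℝ) ^ (-(t.2.2 : ℝ) -
          δ * (|(t.1 : ℝ)| + |(t.2.1 : ℝ)| + |(t.2.2 : ℝ)|)) := by
        rcases lt_max_iff.1 h1 with h6 | h6
        · linarith
        · exact h6.le
      calc ((T.filter (fun z => ty z = t)).card : ℝ) * (2 * (2 : ℝ) ^ t.2.2)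
          ≤ (c * (2 : ℝ) ^ (-(t.2.2 : ℝ) -
          δ * (|(t.1 : ℝ)| + |(t.2.1 : ℝ)| + |(t.2.2 : ℝ)|))) * (2 * (2 : ℝ) ^ t.2.2) := by
            gcongr
        _ = 2 * c * ((2 : ℝ) ^ (-(t.2.2 : ℝ) - δ * (|(t.1 : ℝ)| + |(t.2.1 : ℝ)| +
            |(t.2.2 : ℝ)|)) * (2 : ℝ) ^ t.2.2) := by ring
        _ = _ := by rw [h2]
  have hsum6 : ∑ t ∈ T.image ty, 2 * c * (wt δ t.1 * (wt δ t.2.1 * wt δ t.2.2)) ≤
      2 * c * K3 := by
    rw [← Finset.mul_sum, hK3]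
    exact mul_le_mul_of_nonneg_left (hK.sum_le_tsum _ fun t _ =>
      (mul_pos (wt_pos δ _) (mul_pos (wt_pos δ _) (wt_pos δ _))).le) (by positivity)
  rw [hsum3, hsum4] at hsum2
  linarith

end Pool.Agent.Helper62.ES
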