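import Pool.Agent.Helper68.ES.St5
import Pool.Agent.Helper62.ES.PigCore

set_option autoImplicit false

open MeasureTheory Set Filter Topology
open scoped ENNReal RealInnerProductSpace

namespace Pool.Agent.Helper62.ES

open Pool.Agent.Helper68.ES Pool.Agent.Helper68.EP Pool.Agent.Helper20.RG
open Pool.Agent.Helper20.RL (RQ Rich BM Fml Hit)
open Pool.Agent.Helper68.LM (Pl BB Bd Av HL ft fm DQ)

theorem hPIG : Pool.Agent.Helper68.ES.StPIG := by
  classical
  intro p e c₀ δ _ _ he hc₀ hδ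
  obtain ⟨u₀, c, h1, h2, h3⟩ := pig_core p e c₀ δ he hc₀ hδ
  refine ⟨u₀, c, h1, h2, ?_⟩
  intro P Δ ct U₀ V k E x hp hU hs
  have h4 := h3 (fun u q i => (Hs Δ ct u k (th i) (Eg (E u) (DD P u) q k) x).ncard)
    (fun u q i => if Crit P.p (e / 6) u q i then
      (2 : ℝ) ^ (-(i : ℤ)) * hn P Δ ct u q i k (E u) x else 0) U₀ V ?_ hU ?_
  · rcases h4 with ⟨u, q, i, a1, a2, a3⟩ | ⟨R, Y, β, W, q, i, a1, a2⟩
    · exact Or.inl ⟨u, q, i, a1, a2, a3⟩
    · refine Or.inr ⟨R, Y, β, W, q, i, a1, fun w hw => ?_⟩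
      obtain ⟨b1, ⟨b2, b3, b4⟩, b5, b6⟩ := a2 w hw
      refine ⟨b1, ⟨⟨?_, ?_, b4⟩, b5, b6⟩⟩
      · rw [hp]; exact b2
      · rw [hp]; exact b3
  · intro u q i
    by_cases hC : Crit P.p (e / 6) u q i
    · right
      refine ⟨?_, ?_⟩
      · rw [hp] at hC; exact hC
      · show (if Crit P.p (e / 6) u q i then _ else _) = _
        rw [if_pos hC]
        rfl
    · left
      show (if Crit P.p (e / 6) u q i then _ else _) = _
      rw [if_neg hC]
  · refine hs.trans (le_of_eq ?_)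
    refine Finset.sum_congr rfl fun u _ => ?_
    unfold cr
    refine Finset.sum_congr rfl fun q _ => Finset.sum_congr rfl fun i _ => ?_
    by_cases hC : Crit P.p (e / 6) u q i
    · simp only [hC, if_true]
    · simp only [hC, if_false]

end Pool.Agent.Helper62.ES
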